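import Mathlib
import Pool.Agent.H1.FekA

open Filter Topology

namespace Pool.Agent.Results.MP_9ec5dc_an.Q1

/-- Product of the distances over all pairs `μ < ν`. -/
noncomputable def V {n : ℕ} (w : Fin n → ℂ) : ℝ := ∏ i, ∏ j ∈ Finset.Ioi i, ‖w i - w j‖

/-- The `n`-th diameter of `E`. -/
noncomputable def dn (E : Set ℂ) (n : ℕ) : ℝ :=
  sSup {v | ∃ w : Fin n → ℂ, (∀ i, w i ∈ E) ∧ v = V w} ^ (2 / ((n : ℝ) * (n - 1)))

theorem result (E : Set ℂ) (hE : IsCompact E) (hd : Tendsto (dn E) atTop (𝓝 1)) (n : ℕ)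
    (hn : 2 ≤ n) : (n : ℝ) ^ (1 / ((n : ℝ) - 1)) ≤ dn E n ∧
      ∃ w : Fin n → ℂ, (∀ i, w i ∈ E) ∧ (n : ℝ) ^ ((n : ℝ) / 2) ≤ V w := by
  have hne : E.Nonempty := by
    by_contra h
    rw [Set.not_nonempty_iff_eq_empty] at h
    obtain ⟨m, h1, h2⟩ := ((hd.eventually (lt_mem_nhds (show (0 : ℝ) < 1 by norm_num))).and
      (eventually_ge_atTop 2)).exists
    have h3 : {v | ∃ w : Fin m → ℂ, (∀ i, w i ∈ E) ∧ v = V w} = ∅ := by
      ext v
      simp only [h, Set.mem_ofPred_eq, Set.mem_empty_iff_false, iff_false, not_exists, not_and]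
      exact fun w hw => (hw ⟨0, by omega⟩).elim
    have h4 : (2 : ℝ) ≤ m := by exact_mod_cast h2
    rw [dn, h3, Real.sSup_empty, Real.zero_rpow (div_pos two_pos (by nlinarith)).ne'] at h1
    exact lt_irrefl _ h1
  have hs : ∀ m, ∃ x : Fin m → ℂ, (∀ i, x i ∈ E) ∧ (∀ w : Fin m → ℂ, (∀ i, w i ∈ E) →
      V w ≤ V x) ∧ dn E m = V x ^ (2 / ((m : ℝ) * (m - 1))) := by
    intro m
    obtain ⟨x, h1, h2⟩ := H1.FekA.fek hE hne m
    refine ⟨x, h1, h2, ?_⟩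
    have h3 : IsGreatest {v | ∃ w : Fin m → ℂ, (∀ i, w i ∈ E) ∧ v = V w} (V x) :=
      ⟨⟨x, h1, rfl⟩, by rintro _ ⟨w, hw, rfl⟩; exact h2 w hw⟩
    rw [dn, h3.csSup_eq]
  have hT := H1.FekA.cheb hE (fun τ h0 h1 => by
    have ht : Tendsto (fun l : ℕ => 2 * l + 1) atTop atTop :=
      tendsto_atTop_mono (fun l => by simp only [id]; omega) tendsto_id
    filter_upwards [(hd.comp ht).eventually (lt_mem_nhds h1), eventually_ge_atTop 1] with l h2 h3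
    obtain ⟨x, g1, -, g3⟩ := hs (2 * l + 1)
    refine ⟨x, g1, ?_⟩
    have h4 : (1 : ℝ) ≤ l := by exact_mod_cast h3
    rw [Function.comp_apply, g3] at h2
    have h5 := pow_le_pow_left₀ h0.le h2.le (l * (2 * l + 1))
    rwa [← Real.rpow_natCast (V x ^ _), ← Real.rpow_mul (x := V x) (H1.FekA.V_nn x),
      show 2 / (((2 * l + 1 : ℕ) : ℝ) * (((2 * l + 1 : ℕ) : ℝ) - 1)) *
        ((l * (2 * l + 1) : ℕ) : ℝ) = 1 by push_cast; field_simp; ring, Real.rpow_one] at h5)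
  obtain ⟨x, g1, g2, g3⟩ := hs n
  obtain ⟨u, u1, u2⟩ := H1.FekA.V_roots n (by omega)
  have h1 : H1.FekA.V u ≤ V x := H1.FekA.V_torus hE hT (H1.FekA.V_nn x) g2 u u1
  have h2 : (2 : ℝ) ≤ n := by exact_mod_cast hn
  have h3 : (n : ℝ) ^ ((n : ℝ) / 2) ≤ V x := by
    refine le_trans (le_of_eq ?_) h1
    rw [← Real.sqrt_sq (H1.FekA.V_nn u), u2, Real.sqrt_eq_rpow, ← Real.rpow_natCast,
      ← Real.rpow_mul (by linarith)]
    congr 1; ring
  refine ⟨?_, x, g1, h3⟩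
  have h4 : (0 : ℝ) < n - 1 := by linarith
  rw [g3]
  refine le_trans (le_of_eq ?_) (Real.rpow_le_rpow (by positivity) h3 (by positivity))
  rw [← Real.rpow_mul (by linarith)]
  congr 1; field_simp

end Pool.Agent.Results.MP_9ec5dc_an.Q1
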